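import Pool.Agent.helper62.DP7.Spec

/-!
# d7:CO5: a reducible configuration
-/

set_option autoImplicit false

namespace Pool.Agent.helper62.DP7

open Finset

theorem CO5_mono {V W : Type} {G : SimpleGraph V} {R : W → W → Prop} {L : V → Finset W}
    {A B B' : Finset V} (h : Col G R L A B) (hB : B' ⊆ B) : Col G R L A B' := by
  obtain ⟨f, hf, hg⟩ := h
  exact ⟨f, fun x hx => hf x (hB hx), fun x hx y hy => hg x (hB hx) y (hB hy)⟩

theorem CO5_via {V : Type} {G : SimpleGraph V} {A : Finset V} {x y c : V} (hne : x ≠ y) (hc : c ∈ A)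
    (h1 : G.Adj x c) (h2 : G.Adj c y) : sq G A x y := ⟨hne, Or.inr ⟨c, hc, h1, h2⟩⟩

theorem CO5_ad {V : Type} {G : SimpleGraph V} {A : Finset V} {x y : V} (h : G.Adj x y) :
    sq G A x y := ⟨h.ne, Or.inl h⟩

theorem CO5_pair {V : Type} [DecidableEq V] {N : Finset V} {u : V} (h : N.card = 2) (hu : u ∈ N) :
    ∃ w, w ≠ u ∧ N = {u, w} := by
  obtain ⟨x, y, hxy, rfl⟩ := Finset.card_eq_two.1 h
  rcases Finset.mem_insert.1 hu with h1 | h1
  · subst h1
    exact ⟨y, hxy.symm, rfl⟩
  · rw [Finset.mem_singleton] at h1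
    subst h1
    exact ⟨x, hxy, Finset.pair_comm _ _⟩

theorem CO5_step (hGRD : GRD_stmt) (hOUT : OUT_stmt) {V W : Type} [DecidableEq V] {G : SimpleGraph V}
    {R : W → W → Prop} {L : V → Finset W} (hC : Cov R L) {A B : Finset V}
    (hle : ∀ x ∈ A, (nb G A x).card ≤ 3) {x y z : V} (hy : y ∈ A) (hx : x ∈ nb G A y)
    (hz : z ∈ nb G A y) (hxz : x ≠ z) (hd : (nb G A y).card ≤ 2) (hBA : B ⊆ A) (hxB : x ∉ B)
    (hyB : y ∉ B) (h : Col G R L A B) : Col G R L A (insert z B) := by
  have hz' := mem_nb.1 hz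
  have hx' := mem_nb.1 hx
  refine hGRD V W G R L hC A B z h ?_
  have hT1 : ({x, y} : Finset V) ⊆ A := by
    intro w hw
    rcases Finset.mem_insert.1 hw with h1 | h1
    · rw [h1]; exact hx'.1
    · rw [Finset.mem_singleton.1 h1]; exact hy
  have hT2 : Disjoint ({x, y} : Finset V) B := by
    rw [Finset.disjoint_left]
    intro w hw
    rcases Finset.mem_insert.1 hw with h1 | h1
    · rw [h1]; exact hxB
    · rw [Finset.mem_singleton.1 h1]; exact hyB
  have hT3 : ∀ w ∈ ({x, y} : Finset V), sq G A z w := by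
    intro w hw
    rcases Finset.mem_insert.1 hw with h1 | h1
    · rw [h1]; exact CO5_via hxz.symm hy hz'.2.symm hx'.2
    · rw [Finset.mem_singleton.1 h1]; exact CO5_ad hz'.2.symm
  have h1 := (hOUT V G A B {x, y} z hz'.1 hBA hT1 hT2 hT3).2.2.1 hle ⟨y, mem_nb.2 ⟨hy, hz'.2.symm⟩, hd⟩
  rw [Finset.card_pair hx'.2.ne'] at h1
  have := hle z hz'.1
  omega

theorem CO5_last (hGRD : GRD_stmt) (hOUT : OUT_stmt) {V W : Type} [DecidableEq V] {G : SimpleGraph V}
    {R : W → W → Prop} {L : V → Finset W} (hC : Cov R L) {A B : Finset V}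
    (hle : ∀ x ∈ A, (nb G A x).card ≤ 3) {z : V} (hz : z ∈ A) (hd : (nb G A z).card ≤ 2) (hBA : B ⊆ A)
    (h : Col G R L A B) : Col G R L A (insert z B) := by
  refine hGRD V W G R L hC A B z h ?_
  have h1 := (hOUT V G A B ∅ z hz hBA (Finset.empty_subset _) (Finset.disjoint_empty_left _)
    (by intro x hx; exact absurd hx (Finset.notMem_empty x))).2.1 hle
  rw [Finset.card_empty] at h1
  omega

theorem CO5 (hUNC : UNC_stmt) (hGRD : GRD_stmt) (hOUT : OUT_stmt) (hCOR : COR_stmt) : CO5_stmt := by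
  intro V W _ G R L hC hG A v u a b p q s t hR hF hv hv2 hu hab hva hvb hnu hp hpu hq hqu hs hs2 ht ht2 hcol
  have hle := hR.le3
  obtain ⟨huA, hvu⟩ := mem_nb.1 hu
  have hau : a ∈ nb G A u := by rw [hnu]; simp
  have hbu : b ∈ nb G A u := by rw [hnu]; simp
  have hvu' : v ∈ nb G A u := by rw [hnu]; simp
  obtain ⟨haA, hua⟩ := mem_nb.1 hau
  obtain ⟨hbA, hub⟩ := mem_nb.1 hbu
  obtain ⟨hpA, hap⟩ := mem_nb.1 hp
  obtain ⟨hqA, hbq⟩ := mem_nb.1 hq
  obtain ⟨hsA, hps⟩ := mem_nb.1 hs
  obtain ⟨htA, hqt⟩ := mem_nb.1 ht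
  have hps' : p ∈ nb G A s := mem_nb.2 ⟨hpA, hps.symm⟩
  have hqt' : q ∈ nb G A t := mem_nb.2 ⟨hqA, hqt.symm⟩
  have hu3 : (nb G A u).card = 3 := hR.sep v hv hv2 u hu
  have hp3 : (nb G A p).card = 3 := hR.sep s hsA hs2 p hps'
  have hq3 : (nb G A q).card = 3 := hR.sep t htA ht2 q hqt'
  have ha3 : (nb G A a).card ≠ 2 := fun h => hva (hR.one u huA v hvu' a hau hv2 h)
  have hb3 : (nb G A b).card ≠ 2 := fun h => hvb (hR.one u huA v hvu' b hbu hv2 h)
  have hfa : ∀ x ∈ nb G A a, (nb G A x).card ≠ 2 := fun x hx h => hF u huA a haA hua v hvu' x hx hv2 h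
  have hfb : ∀ x ∈ nb G A b, (nb G A x).card ≠ 2 := fun x hx h => hF u huA b hbA hub v hvu' x hx hv2 h
  have hfu : ∀ x ∈ nb G A u, (nb G A x).card = 2 → x = v := fun x hx h => hR.one u huA x hx v hvu' h hv2
  have hfp : ∀ x ∈ nb G A p, (nb G A x).card = 2 → x = s := fun x hx h => hR.one p hpA x hx s hs h hs2
  have hfq : ∀ x ∈ nb G A q, (nb G A x).card = 2 → x = t := fun x hx h => hR.one q hqA x hx t ht h ht2
  have huv : u ≠ v := hvu.ne'
  have hua' : u ≠ a := hua.ne
  have hub' : u ≠ b := hub.ne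
  have hap' : a ≠ p := hap.ne
  have hbq' : b ≠ q := hbq.ne
  have haq : a ≠ q := fun h => hG.c3 u a b hua (h.symm ▸ hbq.symm) hub.symm
  have hbp : b ≠ p := fun h => hG.c3 u a b hua (h.symm ▸ hap) hub.symm
  have hpq : p ≠ q := fun h => hab (hG.c4 u a p b hua hap hub (h.symm ▸ hbq) hpu.symm)
  have hsv : s ≠ v := fun h => hpu (hG.c4 v u a p hvu hua (h ▸ hps.symm) hap.symm hva).symm
  have htv : t ≠ v := fun h => hqu (hG.c4 v u b q hvu hub (h ▸ hqt.symm) hbq.symm hvb).symm
  have hK2 : ∀ x ∈ ({u, a, b, p, q} : Finset V), (nb G A x).card ≠ 2 := by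
    intro x hx
    simp only [Finset.mem_insert, Finset.mem_singleton] at hx
    rcases hx with h | h | h | h | h
    · rw [h]; omega
    · rw [h]; exact ha3
    · rw [h]; exact hb3
    · rw [h]; omega
    · rw [h]; omega
  have hS2 : ∀ x ∈ ({v, s, t} : Finset V), (nb G A x).card = 2 := by
    intro x hx
    simp only [Finset.mem_insert, Finset.mem_singleton] at hx
    rcases hx with h | h | h
    · rw [h]; exact hv2
    · rw [h]; exact hs2
    · rw [h]; exact ht2
  have hKA : ({u, a, b, p, q} : Finset V) ⊆ A := by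
    intro x hx
    simp only [Finset.mem_insert, Finset.mem_singleton] at hx
    rcases hx with h | h | h | h | h
    · rw [h]; exact huA
    · rw [h]; exact haA
    · rw [h]; exact hbA
    · rw [h]; exact hpA
    · rw [h]; exact hqA
  obtain ⟨w, hwu, hnv⟩ := CO5_pair hv2 hu
  obtain ⟨w1, hwp, hns⟩ := CO5_pair hs2 hps'
  obtain ⟨w2, hwq, hnt⟩ := CO5_pair ht2 hqt'
  have hw : w ∈ nb G A v := by rw [hnv]; simp
  have hw1 : w1 ∈ nb G A s := by rw [hns]; simp
  have hw2 : w2 ∈ nb G A t := by rw [hnt]; simp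
  obtain ⟨hwA, hvw⟩ := mem_nb.1 hw
  obtain ⟨hw1A, hsw1⟩ := mem_nb.1 hw1
  obtain ⟨hw2A, htw2⟩ := mem_nb.1 hw2
  have hw3 : (nb G A w).card = 3 := hR.sep v hv hv2 w hw
  have hw13 : (nb G A w1).card = 3 := hR.sep s hsA hs2 w1 hw1
  have hw23 : (nb G A w2).card = 3 := hR.sep t htA ht2 w2 hw2
  have hwa : w ≠ a := fun h => hG.c3 v u a hvu hua (h ▸ hvw.symm)
  have hwb : w ≠ b := fun h => hG.c3 v u b hvu hub (h ▸ hvw.symm)
  have hwp' : w ≠ p := fun h => hsv (hfp v (mem_nb.2 ⟨hv, h ▸ hvw.symm⟩) hv2).symm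
  have hwq' : w ≠ q := fun h => htv (hfq v (mem_nb.2 ⟨hv, h ▸ hvw.symm⟩) hv2).symm
  have hw1a : w1 ≠ a := fun h => hfa s (mem_nb.2 ⟨hsA, h ▸ hsw1.symm⟩) hs2
  have hw1b : w1 ≠ b := fun h => hfb s (mem_nb.2 ⟨hsA, h ▸ hsw1.symm⟩) hs2
  have hw1u : w1 ≠ u := fun h => hsv (hfu s (mem_nb.2 ⟨hsA, h ▸ hsw1.symm⟩) hs2)
  have hw2a : w2 ≠ a := fun h => hfa t (mem_nb.2 ⟨htA, h ▸ htw2.symm⟩) ht2
  have hw2b : w2 ≠ b := fun h => hfb t (mem_nb.2 ⟨htA, h ▸ htw2.symm⟩) ht2
  have hw2u : w2 ≠ u := fun h => htv (hfu t (mem_nb.2 ⟨htA, h ▸ htw2.symm⟩) ht2)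
  have hne3 : ∀ x y : V, (nb G A x).card = 2 → (nb G A y).card = 3 → x ≠ y := by
    intro x y h2 h3 h
    rw [h] at h2
    omega
  have hSK : ∀ x ∈ ({v, s, t} : Finset V), x ∉ ({u, a, b, p, q} : Finset V) :=
    fun x hx hx' => hK2 x hx' (hS2 x hx)
  have hvK := hSK v (by simp)
  have hsK := hSK s (by simp)
  have htK := hSK t (by simp)
  -- the uncoloured part
  have h0 : Col G R L A (A \ ({v, s, t} ∪ {u, a, b, p, q} ∪ {w, w1, w2})) := by
    refine hUNC V W G R L A {v, s, t} _ ?_ ?_ hcol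
    · exact fun x hx => Finset.mem_union_left _ (Finset.mem_union_left _ hx)
    · intro x hx y hy
      simp only [Finset.mem_insert, Finset.mem_singleton] at hx
      rcases hx with h | h | h
      · rw [h, hnv] at hy
        simp only [Finset.mem_insert, Finset.mem_singleton] at hy
        simp only [Finset.mem_union, Finset.mem_insert, Finset.mem_singleton]
        tauto
      · rw [h, hns] at hy
        simp only [Finset.mem_insert, Finset.mem_singleton] at hy
        simp only [Finset.mem_union, Finset.mem_insert, Finset.mem_singleton]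
        tauto
      · rw [h, hnt] at hy
        simp only [Finset.mem_insert, Finset.mem_singleton] at hy
        simp only [Finset.mem_union, Finset.mem_insert, Finset.mem_singleton]
        tauto
  have h1 : Col G R L A (insert w (A \ ({v, s, t} ∪ {u, a, b, p, q} ∪ {w, w1, w2}))) := by
    refine CO5_step hGRD hOUT hC hle hv hu hw hwu.symm hv2.le Finset.sdiff_subset ?_ ?_ h0
    · simp
    · simp
  have hB : Col G R L A (A \ ({v, s, t} ∪ {u, a, b, p, q})) := by
    by_cases hst : s = t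
    · have hq' : q = w1 := by
        have h2 : q ∈ nb G A s := by rw [hst]; exact hqt'
        rw [hns] at h2
        simp only [Finset.mem_insert, Finset.mem_singleton] at h2
        exact h2.resolve_left hpq.symm
      have hp' : p = w2 := by
        have h2 : p ∈ nb G A t := by rw [← hst]; exact hps'
        rw [hnt] at h2
        simp only [Finset.mem_insert, Finset.mem_singleton] at h2
        exact h2.resolve_left hpq
      refine CO5_mono h1 ?_
      intro x hx
      rw [Finset.mem_sdiff] at hx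
      obtain ⟨hxA, hx⟩ := hx
      rw [← hq', ← hp']
      simp only [Finset.mem_union, Finset.mem_insert, Finset.mem_singleton, Finset.mem_sdiff] at hx ⊢
      tauto
    · have hw1q : w1 ≠ q := fun h => hst (hfq s (mem_nb.2 ⟨hsA, h ▸ hsw1.symm⟩) hs2)
      have hw2p : w2 ≠ p := fun h => hst (hfp t (mem_nb.2 ⟨htA, h ▸ htw2.symm⟩) ht2).symm
      have h2 : Col G R L A (insert w1 (insert w (A \ ({v, s, t} ∪ {u, a, b, p, q} ∪ {w, w1, w2})))) := by
        refine CO5_step hGRD hOUT hC hle hsA hps' hw1 hwp.symm hs2.le ?_ ?_ ?_ h1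
        · exact Finset.insert_subset hwA Finset.sdiff_subset
        · simp [hwp'.symm]
        · simp [hne3 s w hs2 hw3]
      have h3 : Col G R L A (insert w2 (insert w1 (insert w
          (A \ ({v, s, t} ∪ {u, a, b, p, q} ∪ {w, w1, w2}))))) := by
        refine CO5_step hGRD hOUT hC hle htA hqt' hw2 hwq.symm ht2.le ?_ ?_ ?_ h2
        · exact Finset.insert_subset hw1A (Finset.insert_subset hwA Finset.sdiff_subset)
        · simp [hwq'.symm, hw1q.symm]
        · simp [hne3 t w ht2 hw3, hne3 t w1 ht2 hw13]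
      refine CO5_mono h3 ?_
      intro x hx
      rw [Finset.mem_sdiff] at hx
      obtain ⟨hxA, hx⟩ := hx
      simp only [Finset.mem_union, Finset.mem_insert, Finset.mem_singleton, Finset.mem_sdiff] at hx ⊢
      tauto
  -- the core
  set B : Finset V := A \ ({v, s, t} ∪ {u, a, b, p, q}) with hBdef
  have hBA : B ⊆ A := Finset.sdiff_subset
  have hBn : ∀ x, x ∈ ({v, s, t} : Finset V) ∨ x ∈ ({u, a, b, p, q} : Finset V) → x ∉ B := by
    intro x hx hxB
    exact (Finset.mem_sdiff.1 hxB).2 (Finset.mem_union.2 hx)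
  have hnaq : ¬ sq G A a q := by
    rintro ⟨_, h | ⟨c, _, h2, h3⟩⟩
    · exact hab (hG.c4 u a q b hua h hub hbq hqu.symm)
    · exact hG.c5 a u b q c hua.symm hub hbq h3.symm h2.symm
  have hnbp : ¬ sq G A b p := by
    rintro ⟨_, h | ⟨c, _, h2, h3⟩⟩
    · exact hab.symm (hG.c4 u b p a hub h hua hap hpu.symm)
    · exact hG.c5 b u a p c hub.symm hua hap h3.symm h2.symm
  have hTA : ∀ T : Finset V, T ⊆ {v, s, t} ∪ {u, a, b, p, q} → T ⊆ A ∧ Disjoint T B := by
    intro T hT
    constructor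
    · intro x hx
      rcases Finset.mem_union.1 (hT hx) with h | h
      · simp only [Finset.mem_insert, Finset.mem_singleton] at h
        rcases h with h | h | h
        · rw [h]; exact hv
        · rw [h]; exact hsA
        · rw [h]; exact htA
      · exact hKA h
    · rw [Finset.disjoint_left]
      intro x hx
      exact hBn x (Finset.mem_union.1 (hT hx))
  simp only [Finset.mem_insert, Finset.mem_singleton, not_or] at hvK hsK htK
  obtain ⟨hvu1, hva1, hvb1, hvp1, hvq1⟩ := hvK
  obtain ⟨hsu1, hsa1, hsb1, hsp1, hsq1⟩ := hsK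
  obtain ⟨htu1, hta1, htb1, htp1, htq1⟩ := htK
  have hqu5 : (qn G A B u).card ≤ 3 := by
    obtain ⟨hT1, hT2⟩ := hTA {v, a, b, p, q} (by
      intro x hx
      simp only [Finset.mem_union, Finset.mem_insert, Finset.mem_singleton] at hx ⊢
      tauto)
    have h2 := (hOUT V G A B {v, a, b, p, q} u huA hBA hT1 hT2 (by
      intro x hx
      simp only [Finset.mem_insert, Finset.mem_singleton] at hx
      rcases hx with h | h | h | h | h
      · rw [h]; exact CO5_ad hvu.symm
      · rw [h]; exact CO5_ad hua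
      · rw [h]; exact CO5_ad hub
      · rw [h]; exact CO5_via hpu.symm haA hua hap
      · rw [h]; exact CO5_via hqu.symm hbA hub hbq)).2.2.1 hle ⟨v, hvu', hv2.le⟩
    have h3 : ({v, a, b, p, q} : Finset V).card = 5 := by
      rw [Finset.card_insert_of_notMem, Finset.card_insert_of_notMem, Finset.card_insert_of_notMem,
        Finset.card_insert_of_notMem, Finset.card_singleton]
      · simp [hpq]
      · simp [hbp, hbq']
      · simp [hab, hap', haq]
      · simp [hva1, hvb1, hvp1, hvq1]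
    omega
  have hqa5 : (qn G A B a).card ≤ 4 := by
    obtain ⟨hT1, hT2⟩ := hTA {u, b, p, v, s} (by
      intro x hx
      simp only [Finset.mem_union, Finset.mem_insert, Finset.mem_singleton] at hx ⊢
      tauto)
    have h2 := (hOUT V G A B {u, b, p, v, s} a haA hBA hT1 hT2 (by
      intro x hx
      simp only [Finset.mem_insert, Finset.mem_singleton] at hx
      rcases hx with h | h | h | h | h
      · rw [h]; exact CO5_ad hua.symm
      · rw [h]; exact CO5_via hab huA hua.symm hub
      · rw [h]; exact CO5_ad hap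
      · rw [h]; exact CO5_via hva.symm huA hua.symm hvu.symm
      · rw [h]; exact CO5_via (Ne.symm hsa1) hpA hap hps)).2.1 hle
    have h3 : ({u, b, p, v, s} : Finset V).card = 5 := by
      rw [Finset.card_insert_of_notMem, Finset.card_insert_of_notMem, Finset.card_insert_of_notMem,
        Finset.card_insert_of_notMem, Finset.card_singleton]
      · simp [hsv.symm]
      · simp [Ne.symm hvp1, Ne.symm hsp1]
      · simp [hbp, Ne.symm hvb1, Ne.symm hsb1]
      · simp [hub', hpu.symm, huv, Ne.symm hsu1]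
    have := hle a haA
    omega
  have hqb5 : (qn G A B b).card ≤ 4 := by
    obtain ⟨hT1, hT2⟩ := hTA {u, a, q, v, t} (by
      intro x hx
      simp only [Finset.mem_union, Finset.mem_insert, Finset.mem_singleton] at hx ⊢
      tauto)
    have h2 := (hOUT V G A B {u, a, q, v, t} b hbA hBA hT1 hT2 (by
      intro x hx
      simp only [Finset.mem_insert, Finset.mem_singleton] at hx
      rcases hx with h | h | h | h | h
      · rw [h]; exact CO5_ad hub.symm
      · rw [h]; exact CO5_via hab.symm huA hub.symm hua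
      · rw [h]; exact CO5_ad hbq
      · rw [h]; exact CO5_via hvb.symm huA hub.symm hvu.symm
      · rw [h]; exact CO5_via (Ne.symm htb1) hqA hbq hqt)).2.1 hle
    have h3 : ({u, a, q, v, t} : Finset V).card = 5 := by
      rw [Finset.card_insert_of_notMem, Finset.card_insert_of_notMem, Finset.card_insert_of_notMem,
        Finset.card_insert_of_notMem, Finset.card_singleton]
      · simp [htv.symm]
      · simp [Ne.symm hvq1, Ne.symm htq1]
      · simp [haq, Ne.symm hva1, Ne.symm hta1]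
      · simp [hua', hqu.symm, huv, Ne.symm htu1]
    have := hle b hbA
    omega
  have hqp5 : ∀ T : Finset V, T ⊆ {v, s, t} ∪ {u, a, b, p, q} → (∀ x ∈ T, sq G A p x) →
      (qn G A B p).card + T.card ≤ 8 := by
    intro T hT h4
    obtain ⟨hT1, hT2⟩ := hTA T hT
    have h2 := (hOUT V G A B T p hpA hBA hT1 hT2 h4).2.2.1 hle ⟨s, hs, hs2.le⟩
    omega
  have hqq5 : ∀ T : Finset V, T ⊆ {v, s, t} ∪ {u, a, b, p, q} → (∀ x ∈ T, sq G A q x) →
      (qn G A B q).card + T.card ≤ 8 := by
    intro T hT h4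
    obtain ⟨hT1, hT2⟩ := hTA T hT
    have h2 := (hOUT V G A B T q hqA hBA hT1 hT2 h4).2.2.1 hle ⟨t, ht, ht2.le⟩
    omega
  have hpa3 : ∀ x ∈ ({a, u, s} : Finset V), sq G A p x := by
    intro x hx
    simp only [Finset.mem_insert, Finset.mem_singleton] at hx
    rcases hx with h | h | h
    · rw [h]; exact CO5_ad hap.symm
    · rw [h]; exact CO5_via hpu haA hap.symm hua.symm
    · rw [h]; exact CO5_ad hps
  have hqb3 : ∀ x ∈ ({b, u, t} : Finset V), sq G A q x := by
    intro x hx
    simp only [Finset.mem_insert, Finset.mem_singleton] at hx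
    rcases hx with h | h | h
    · rw [h]; exact CO5_ad hbq.symm
    · rw [h]; exact CO5_via hqu hbA hbq.symm hub.symm
    · rw [h]; exact CO5_ad hqt
  have hcp : ({a, u, s} : Finset V).card = 3 := by
    rw [Finset.card_insert_of_notMem, Finset.card_insert_of_notMem, Finset.card_singleton]
    · simp [Ne.symm hsu1]
    · simp [hua'.symm, Ne.symm hsa1]
  have hcq : ({b, u, t} : Finset V).card = 3 := by
    rw [Finset.card_insert_of_notMem, Finset.card_insert_of_notMem, Finset.card_singleton]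
    · simp [Ne.symm htu1]
    · simp [hub'.symm, Ne.symm htb1]
  have hsub1 : ({a, u, s} : Finset V) ⊆ {v, s, t} ∪ {u, a, b, p, q} := by
    intro x hx
    simp only [Finset.mem_union, Finset.mem_insert, Finset.mem_singleton] at hx ⊢
    tauto
  have hsub2 : ({b, u, t} : Finset V) ⊆ {v, s, t} ∪ {u, a, b, p, q} := by
    intro x hx
    simp only [Finset.mem_union, Finset.mem_insert, Finset.mem_singleton] at hx ⊢
    tauto
  have h5 := hqp5 _ hsub1 hpa3
  have h6 := hqq5 _ hsub2 hqb3
  have hP : sq G A p q → (qn G A B p).card ≤ 4 ∧ (qn G A B q).card ≤ 4 := by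
    intro hpq2
    have h7 := hqp5 (insert q {a, u, s}) (Finset.insert_subset (by simp) hsub1) (by
      intro x hx
      rcases Finset.mem_insert.1 hx with h | h
      · rw [h]; exact hpq2
      · exact hpa3 x h)
    have h8 := hqq5 (insert p {b, u, t}) (Finset.insert_subset (by simp) hsub2) (by
      intro x hx
      rcases Finset.mem_insert.1 hx with h | h
      · rw [h]; exact sq_symm hpq2
      · exact hqb3 x h)
    rw [Finset.card_insert_of_notMem (by simp [haq.symm, hqu, Ne.symm hsq1]), hcp] at h7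
    rw [Finset.card_insert_of_notMem (by simp [hbp.symm, hpu, Ne.symm htp1]), hcq] at h8
    constructor <;> omega
  have hcore : Col G R L A (B ∪ {u, a, b, p, q}) := by
    refine hCOR V W G R L hC A B u a b p q (hBn u (Or.inr (by simp))) (hBn a (Or.inr (by simp)))
      (hBn b (Or.inr (by simp))) (hBn p (Or.inr (by simp))) (hBn q (Or.inr (by simp))) ?_ hnaq hnbp
      hqu5 hqa5 hqb5 (by omega) (by omega) hP hB
    simp [hua', hub', hpu.symm, hqu.symm, hab, hap', haq, hbp, hbq', hpq]
  have hBK : B ∪ {u, a, b, p, q} ⊆ A := Finset.union_subset hBA hKA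
  have e1 := CO5_last hGRD hOUT hC hle hv hv2.le hBK hcore
  have e2 := CO5_last hGRD hOUT hC hle hsA hs2.le (Finset.insert_subset hv hBK) e1
  have e3 := CO5_last hGRD hOUT hC hle htA ht2.le (Finset.insert_subset hsA (Finset.insert_subset hv hBK)) e2
  refine CO5_mono e3 ?_
  intro x hx
  simp only [hBdef, Finset.mem_union, Finset.mem_insert, Finset.mem_singleton, Finset.mem_sdiff]
  tauto

end Pool.Agent.helper62.DP7
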